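import Pool.Agent.Helper599_UF.Sound
import Pool.Agent.Helper599_UF.Runs
import Pool.Agent.Helper599_UF.Runs80
import Pool.Agent.Helper599_UF.Runs100
import Pool.Agent.Helper599_UF.Runs120

/-!
# Avoiding 1/a as a sum of distinct unit fractions (MP_02969a_nt)

If `A ⊆ {1, …, N}` contains no distinct `a, b₁, …, b_k` with `1/a = 1/b₁ + ⋯ + 1/b_k`, then
`|A| ≤ (191/225) N + 120`.

Proof idea.  For `u` prime to `30` look at the multiples `u s ≤ N` with `s` free of primes above `5`.
If `N/u ≥ X` then `A` misses at least `h(X)` of them, where `h(X)` is the least number of elements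
meeting all relations among the 5-smooth numbers up to `X`; here `h(6) = 1, …, h(120) = 15`.
-/

open Finset

namespace Pool.Agent.Results.MP_02969a_nt.FiveSmooth

open Pool.Agent.Helper599UF

/-- No `1/a` with `a ∈ A` is the sum of the reciprocals of a set of other elements of `A`. -/
def Admissible (A : Finset ℕ) : Prop :=
  ∀ a ∈ A, ∀ S : Finset ℕ, S ⊆ A → a ∉ S →
    ∑ b ∈ S, (1 : ℚ) / (b : ℚ) ≠ (1 : ℚ) / (a : ℚ)

/-- The `i`-th 5-smooth number. -/
def pv (i : ℕ) : ℕ := sm.getD i 0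

/-- The bit mask of a set of positions. -/
def toMask (r : List ℕ) : ℕ := r.foldr (fun i acc => 2 ^ i ||| acc) 0

/-- The relation `1/pv a = ∑ 1/pv b` holds, with distinct positions below `36`. -/
def validRel : List ℕ → Bool
  | [] => false
  | a :: bs => decide ((a :: bs).Nodup) && ((bs.map fun b => 129600 / pv b).sum == 129600 / pv a) &&
      (a :: bs).all (fun i => decide (i < 36))

theorem allValid : allRels.all validRel = true := by decide +kernel

theorem masks_eq : allMasks = allRels.map toMask := by decide +kernel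

theorem pv_dvd : ∀ i < 36, pv i ∣ 129600 := by decide +kernel

theorem pv_pos : ∀ i < 36, 0 < pv i := by decide +kernel

theorem pv_dvd_pow : ∀ i < 36, pv i ∣ 30 ^ 7 := by decide +kernel

theorem pv_inj : ∀ i < 36, ∀ j < 36, pv i = pv j → i = j := by decide +kernel

theorem testBit_toMask (r : List ℕ) (i : ℕ) : (toMask r).testBit i = true ↔ i ∈ r := by
  induction r with
  | nil => simp [toMask]
  | cons a r ih =>
    have : toMask (a :: r) = 2 ^ a ||| toMask r := rfl
    rw [this, Nat.testBit_or, Bool.or_eq_true, ih, Nat.testBit_two_pow, List.mem_cons,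
      decide_eq_true_eq]
    constructor
    · rintro (h | h)
      · exact Or.inl h.symm
      · exact Or.inr h
    · rintro (h | h)
      · exact Or.inl h.symm
      · exact Or.inr h

/-- Every relation is met by a missing element. -/
theorem hit {A : Finset ℕ} (hA : Admissible A) {u : ℕ} (hu : 0 < u) (n : ℕ) (m : ℕ)
    (hm : m ∈ allMasks) (hmn : m < 2 ^ n) :
    ∃ i ∈ (range n).filter (fun i => u * pv i ∉ A), m.testBit i = true := by
  rw [masks_eq, List.mem_map] at hm
  obtain ⟨r, hr, rfl⟩ := hm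
  have hv : validRel r = true := List.all_eq_true.1 allValid r hr
  by_contra hcon
  push Not at hcon
  have hin : ∀ i ∈ r, u * pv i ∈ A := by
    intro i hi
    have hb := (testBit_toMask r i).2 hi
    by_contra hnot
    have hlt : i < n := by
      have h1 := Nat.ge_two_pow_of_testBit hb
      exact (Nat.pow_lt_pow_iff_right (by norm_num)).1 (lt_of_le_of_lt h1 hmn)
    have := hcon i (mem_filter.2 ⟨mem_range.2 hlt, hnot⟩)
    exact this hb
  cases r with
  | nil => simp [validRel] at hv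
  | cons a bs =>
    rw [validRel, Bool.and_eq_true, Bool.and_eq_true, decide_eq_true_eq, beq_iff_eq] at hv
    obtain ⟨⟨hnd, hsum⟩, hall⟩ := hv
    have hlt : ∀ i ∈ a :: bs, i < 36 := fun i hi => by
      simpa using List.all_eq_true.1 hall i hi
    have ha36 := hlt a List.mem_cons_self
    have hnd' := List.nodup_cons.1 hnd
    have hinj : Set.InjOn (fun i => u * pv i) (bs.toFinset : Set ℕ) := by
      intro i hi j hj hij
      have hi' : i ∈ bs := by simpa using hi
      have hj' : j ∈ bs := by simpa using hj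
      exact pv_inj i (hlt i (List.mem_cons_of_mem _ hi')) j (hlt j (List.mem_cons_of_mem _ hj'))
        (Nat.eq_of_mul_eq_mul_left hu hij)
    have hu' : (u : ℚ) ≠ 0 := by exact_mod_cast hu.ne'
    refine hA (u * pv a) (hin a List.mem_cons_self) (bs.toFinset.image fun i => u * pv i) ?_ ?_ ?_
    · intro x hx
      rw [mem_image] at hx
      obtain ⟨i, hi, rfl⟩ := hx
      exact hin i (List.mem_cons_of_mem _ (by simpa using hi))
    · intro hx
      rw [mem_image] at hx
      obtain ⟨i, hi, hEq⟩ := hx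
      have hi' : i ∈ bs := by simpa using hi
      have := pv_inj i (hlt i (List.mem_cons_of_mem _ hi')) a ha36
        (Nat.eq_of_mul_eq_mul_left hu hEq)
      exact hnd'.1 (this ▸ hi')
    · rw [Finset.sum_image hinj, List.sum_toFinset _ hnd'.2]
      have hterm : ∀ i < 36, (1 : ℚ) / ((u * pv i : ℕ) : ℚ) =
          (1 / (u * 129600 : ℚ)) * ((129600 / pv i : ℕ) : ℚ) := by
        intro i hi
        have hp : ((pv i : ℕ) : ℚ) ≠ 0 := by exact_mod_cast (pv_pos i hi).ne'
        rw [Nat.cast_div (pv_dvd i hi) hp]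
        push_cast
        field_simp
      have hmap : bs.map (fun i => (1 : ℚ) / ((u * pv i : ℕ) : ℚ)) =
          bs.map (fun i => (1 / (u * 129600 : ℚ)) * ((129600 / pv i : ℕ) : ℚ)) :=
        List.map_congr_left fun i hi => hterm i (hlt i (List.mem_cons_of_mem _ hi))
      rw [hmap, List.sum_map_mul_left, hterm a ha36, ← hsum]
      congr 1
      rw [Nat.cast_list_sum, List.map_map]
      rfl

/-- The search gives a lower bound for the number of missing elements. -/
theorem level {A : Finset ℕ} (hA : Admissible A) {u : ℕ} (hu : 0 < u) (N n X k : ℕ)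
    (ms : List ℕ) (hms : ms = allMasks.filter fun m => decide (m < 2 ^ n)) (hn : n ≤ 36)
    (hX : ∀ i < n, pv i ≤ X) (hrun : run ms 200 true 0 0 k 0 = true) (huX : u * X ≤ N) :
    k + 1 ≤ ((range 36).filter fun i => u * pv i ≤ N ∧ u * pv i ∉ A).card := by
  have h1 : k < ((range n).filter (fun i => u * pv i ∉ A)).card := by
    refine run_card hrun fun m hm => ?_
    rw [hms, List.mem_filter, decide_eq_true_eq] at hm
    exact hit hA hu n m hm.1 hm.2
  refine Nat.succ_le_of_lt (lt_of_lt_of_le h1 (Finset.card_le_card ?_))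
  intro i hi
  rw [mem_filter, mem_range] at hi ⊢
  exact ⟨by omega, (Nat.mul_le_mul_left u (hX i hi.1)).trans huX, hi.2⟩

/-- The residues prime to `30`. -/
def res : Finset ℕ := {1, 7, 11, 13, 17, 19, 23, 29}

theorem res_coprime : ∀ r ∈ res, r.gcd 30 = 1 := by decide

theorem res_bounds : ∀ r ∈ res, 0 < r ∧ r < 30 := by decide

theorem count (N X : ℕ) :
    8 * (N / (30 * X)) ≤
      ∑ y ∈ range N ×ˢ res, if (30 * y.1 + y.2) * X ≤ N then 1 else 0 := by
  rw [← Finset.card_filter]
  rcases Nat.eq_zero_or_pos X with rfl | hX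
  · simp
  have hsub : range (N / (30 * X)) ×ˢ res ⊆
      (range N ×ˢ res).filter fun y => (30 * y.1 + y.2) * X ≤ N := by
    intro y hy
    rw [mem_product, mem_range] at hy
    rw [mem_filter, mem_product, mem_range]
    have h1 := (res_bounds y.2 hy.2).2
    have h2 : (30 * y.1 + y.2) * X ≤ (30 * X) * (N / (30 * X)) := by
      calc (30 * y.1 + y.2) * X ≤ (30 * (y.1 + 1)) * X := Nat.mul_le_mul_right X (by omega)
        _ = (30 * X) * (y.1 + 1) := by ring
        _ ≤ (30 * X) * (N / (30 * X)) := Nat.mul_le_mul_left _ hy.1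
    refine ⟨⟨lt_of_lt_of_le hy.1 (Nat.div_le_self _ _), hy.2⟩, h2.trans (Nat.mul_div_le _ _)⟩
  have h3 := Finset.card_le_card hsub
  rw [Finset.card_product, Finset.card_range] at h3
  have h4 : res.card = 8 := by decide
  rw [h4] at h3
  omega

theorem coprime_pv {q r i : ℕ} (hr : r ∈ res) (hi : i < 36) :
    Nat.Coprime (30 * q + r) (pv i) := by
  have h1 : Nat.Coprime (30 * q + r) 30 := by
    have := res_coprime r hr
    rw [Nat.Coprime, Nat.gcd_comm, Nat.gcd_mul_left_add_right, Nat.gcd_comm]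
    exact this
  exact Nat.Coprime.coprime_dvd_right (pv_dvd_pow i hi) (Nat.Coprime.pow_right 7 h1)

theorem missing {A : Finset ℕ} {N : ℕ} :
    ∑ y ∈ range N ×ˢ res,
      ((range 36).filter fun i => (30 * y.1 + y.2) * pv i ≤ N ∧ (30 * y.1 + y.2) * pv i ∉ A).card ≤
      (Icc 1 N \ A).card := by
  classical
  set T : Finset ((ℕ × ℕ) × ℕ) := ((range N ×ˢ res) ×ˢ range 36).filter fun x =>
    (30 * x.1.1 + x.1.2) * pv x.2 ≤ N ∧ (30 * x.1.1 + x.1.2) * pv x.2 ∉ A with hT
  have h1 : T.card = ∑ y ∈ range N ×ˢ res,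
      ((range 36).filter fun i => (30 * y.1 + y.2) * pv i ≤ N ∧
        (30 * y.1 + y.2) * pv i ∉ A).card := by
    rw [hT, Finset.card_filter, Finset.sum_product]
    refine Finset.sum_congr rfl fun y _ => ?_
    rw [Finset.card_filter]
  rw [← h1]
  refine Finset.card_le_card_of_injOn (fun x => (30 * x.1.1 + x.1.2) * pv x.2) ?_ ?_
  · intro x hx
    have hx' : x ∈ T := by simpa using hx
    rw [hT, mem_filter, mem_product, mem_product] at hx'
    obtain ⟨⟨⟨-, hr⟩, hi⟩, hle, hnot⟩ := hx'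
    have hp := pv_pos x.2 (mem_range.1 hi)
    have hr0 := (res_bounds _ hr).1
    have : 0 < (30 * x.1.1 + x.1.2) * pv x.2 := Nat.mul_pos (by omega) hp
    simp only [coe_sdiff, coe_Icc, Set.mem_sdiff, Set.mem_Icc, Finset.mem_coe]
    exact ⟨⟨this, hle⟩, hnot⟩
  · intro x hx y hy hxy
    have hx' : x ∈ T := by simpa using hx
    have hy' : y ∈ T := by simpa using hy
    rw [hT, mem_filter, mem_product, mem_product] at hx' hy'
    obtain ⟨⟨⟨-, hrx⟩, hix⟩, -⟩ := hx'
    obtain ⟨⟨⟨-, hry⟩, hiy⟩, -⟩ := hy'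
    have hix' := mem_range.1 hix
    have hiy' := mem_range.1 hiy
    simp only at hxy
    have d1 : pv x.2 ∣ pv y.2 := by
      have : pv x.2 ∣ (30 * y.1.1 + y.1.2) * pv y.2 := hxy ▸ Dvd.intro_left _ rfl
      exact (Nat.Coprime.symm (coprime_pv hry hix')).dvd_of_dvd_mul_left this
    have d2 : pv y.2 ∣ pv x.2 := by
      have : pv y.2 ∣ (30 * x.1.1 + x.1.2) * pv x.2 := hxy ▸ Dvd.intro_left _ rfl
      exact (Nat.Coprime.symm (coprime_pv hrx hiy')).dvd_of_dvd_mul_left this
    have e1 : pv x.2 = pv y.2 := Nat.dvd_antisymm d1 d2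
    have e2 := pv_inj _ hix' _ hiy' e1
    rw [e1] at hxy
    have e3 := Nat.eq_of_mul_eq_mul_right (pv_pos _ hiy') hxy
    have b1 := res_bounds _ hrx
    have b2 := res_bounds _ hry
    have e4 : x.1.1 = y.1.1 := by omega
    have e5 : x.1.2 = y.1.2 := by omega
    exact Prod.ext (Prod.ext e4 e5) e2

theorem chain (R e6 e12 e15 e20 e30 e36 e40 e45 e48 e60 e75 e80 e100 e120 : ℕ)
    (b6 : e6 ≤ 1)
    (b12 : e12 ≤ 1)
    (b15 : e15 ≤ 1)
    (b20 : e20 ≤ 1)
    (b30 : e30 ≤ 1)
    (b36 : e36 ≤ 1)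
    (b40 : e40 ≤ 1)
    (b45 : e45 ≤ 1)
    (b48 : e48 ≤ 1)
    (b60 : e60 ≤ 1)
    (b75 : e75 ≤ 1)
    (b80 : e80 ≤ 1)
    (b100 : e100 ≤ 1)
    (b120 : e120 ≤ 1)
    (l6 : e6 = 1 → 1 ≤ R)
    (l12 : e12 = 1 → 2 ≤ R)
    (l15 : e15 = 1 → 3 ≤ R)
    (l20 : e20 = 1 → 4 ≤ R)
    (l30 : e30 = 1 → 5 ≤ R)
    (l36 : e36 = 1 → 6 ≤ R)
    (l40 : e40 = 1 → 7 ≤ R)
    (l45 : e45 = 1 → 8 ≤ R)
    (l48 : e48 = 1 → 9 ≤ R)
    (l60 : e60 = 1 → 10 ≤ R)
    (l75 : e75 = 1 → 11 ≤ R)
    (l80 : e80 = 1 → 12 ≤ R)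
    (l100 : e100 = 1 → 14 ≤ R)
    (l120 : e120 = 1 → 15 ≤ R)
    : e6 + e12 + e15 + e20 + e30 + e36 + e40 + e45 + e48 + e60 + e75 + e80 + 2 * e100 + e120 ≤ R := by
  by_cases h120 : e120 = 1
  · have := l120 h120; omega
  by_cases h100 : e100 = 1
  · have := l100 h100; omega
  by_cases h80 : e80 = 1
  · have := l80 h80; omega
  by_cases h75 : e75 = 1
  · have := l75 h75; omega
  by_cases h60 : e60 = 1
  · have := l60 h60; omega
  by_cases h48 : e48 = 1
  · have := l48 h48; omega
  by_cases h45 : e45 = 1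
  · have := l45 h45; omega
  by_cases h40 : e40 = 1
  · have := l40 h40; omega
  by_cases h36 : e36 = 1
  · have := l36 h36; omega
  by_cases h30 : e30 = 1
  · have := l30 h30; omega
  by_cases h20 : e20 = 1
  · have := l20 h20; omega
  by_cases h15 : e15 = 1
  · have := l15 h15; omega
  by_cases h12 : e12 = 1
  · have := l12 h12; omega
  by_cases h6 : e6 = 1
  · have := l6 h6; omega
  omega

theorem ms6_eq : ms6 = allMasks.filter fun m => decide (m < 2 ^ 6) := by decide +kernel
theorem pv_le6 : ∀ i < 6, pv i ≤ 6 := by decide +kernel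
theorem ms12_eq : ms12 = allMasks.filter fun m => decide (m < 2 ^ 10) := by decide +kernel
theorem pv_le12 : ∀ i < 10, pv i ≤ 12 := by decide +kernel
theorem ms15_eq : ms15 = allMasks.filter fun m => decide (m < 2 ^ 11) := by decide +kernel
theorem pv_le15 : ∀ i < 11, pv i ≤ 15 := by decide +kernel
theorem ms20_eq : ms20 = allMasks.filter fun m => decide (m < 2 ^ 14) := by decide +kernel
theorem pv_le20 : ∀ i < 14, pv i ≤ 20 := by decide +kernel
theorem ms30_eq : ms30 = allMasks.filter fun m => decide (m < 2 ^ 18) := by decide +kernel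
theorem pv_le30 : ∀ i < 18, pv i ≤ 30 := by decide +kernel
theorem ms36_eq : ms36 = allMasks.filter fun m => decide (m < 2 ^ 20) := by decide +kernel
theorem pv_le36 : ∀ i < 20, pv i ≤ 36 := by decide +kernel
theorem ms40_eq : ms40 = allMasks.filter fun m => decide (m < 2 ^ 21) := by decide +kernel
theorem pv_le40 : ∀ i < 21, pv i ≤ 40 := by decide +kernel
theorem ms45_eq : ms45 = allMasks.filter fun m => decide (m < 2 ^ 22) := by decide +kernel
theorem pv_le45 : ∀ i < 22, pv i ≤ 45 := by decide +kernel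
theorem ms48_eq : ms48 = allMasks.filter fun m => decide (m < 2 ^ 23) := by decide +kernel
theorem pv_le48 : ∀ i < 23, pv i ≤ 48 := by decide +kernel
theorem ms60_eq : ms60 = allMasks.filter fun m => decide (m < 2 ^ 26) := by decide +kernel
theorem pv_le60 : ∀ i < 26, pv i ≤ 60 := by decide +kernel
theorem ms75_eq : ms75 = allMasks.filter fun m => decide (m < 2 ^ 29) := by decide +kernel
theorem pv_le75 : ∀ i < 29, pv i ≤ 75 := by decide +kernel
theorem ms80_eq : ms80 = allMasks.filter fun m => decide (m < 2 ^ 30) := by decide +kernel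
theorem pv_le80 : ∀ i < 30, pv i ≤ 80 := by decide +kernel
theorem ms100_eq : ms100 = allMasks.filter fun m => decide (m < 2 ^ 34) := by decide +kernel
theorem pv_le100 : ∀ i < 34, pv i ≤ 100 := by decide +kernel
theorem ms120_eq : ms120 = allMasks.filter fun m => decide (m < 2 ^ 36) := by decide +kernel
theorem pv_le120 : ∀ i < 36, pv i ≤ 120 := by decide +kernel

theorem lower {A : Finset ℕ} (hA : Admissible A) (N u : ℕ) (hu : 0 < u) :
    (if u * 6 ≤ N then 1 else 0) +
      (if u * 12 ≤ N then 1 else 0) +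
      (if u * 15 ≤ N then 1 else 0) +
      (if u * 20 ≤ N then 1 else 0) +
      (if u * 30 ≤ N then 1 else 0) +
      (if u * 36 ≤ N then 1 else 0) +
      (if u * 40 ≤ N then 1 else 0) +
      (if u * 45 ≤ N then 1 else 0) +
      (if u * 48 ≤ N then 1 else 0) +
      (if u * 60 ≤ N then 1 else 0) +
      (if u * 75 ≤ N then 1 else 0) +
      (if u * 80 ≤ N then 1 else 0) +
      2 * (if u * 100 ≤ N then 1 else 0) +
      (if u * 120 ≤ N then 1 else 0) ≤
      ((range 36).filter fun i => u * pv i ≤ N ∧ u * pv i ∉ A).card := by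
  have b : ∀ X : ℕ, (if u * X ≤ N then 1 else 0) ≤ 1 := fun X => by split_ifs <;> omega
  have c : ∀ X : ℕ, (if u * X ≤ N then 1 else 0) = 1 → u * X ≤ N := fun X h => by
    by_contra hc; rw [if_neg hc] at h; omega
  exact chain _ _ _ _ _ _ _ _ _ _ _ _ _ _ _ (b _) (b _) (b _) (b _) (b _) (b _) (b _) (b _) (b _) (b _) (b _) (b _) (b _) (b _)
    (fun h => level hA hu N 6 6 0 ms6 ms6_eq (by norm_num) pv_le6 run6 (c _ h))
    (fun h => level hA hu N 10 12 1 ms12 ms12_eq (by norm_num) pv_le12 run12 (c _ h))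
    (fun h => level hA hu N 11 15 2 ms15 ms15_eq (by norm_num) pv_le15 run15 (c _ h))
    (fun h => level hA hu N 14 20 3 ms20 ms20_eq (by norm_num) pv_le20 run20 (c _ h))
    (fun h => level hA hu N 18 30 4 ms30 ms30_eq (by norm_num) pv_le30 run30 (c _ h))
    (fun h => level hA hu N 20 36 5 ms36 ms36_eq (by norm_num) pv_le36 run36 (c _ h))
    (fun h => level hA hu N 21 40 6 ms40 ms40_eq (by norm_num) pv_le40 run40 (c _ h))
    (fun h => level hA hu N 22 45 7 ms45 ms45_eq (by norm_num) pv_le45 run45 (c _ h))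
    (fun h => level hA hu N 23 48 8 ms48 ms48_eq (by norm_num) pv_le48 run48 (c _ h))
    (fun h => level hA hu N 26 60 9 ms60 ms60_eq (by norm_num) pv_le60 run60 (c _ h))
    (fun h => level hA hu N 29 75 10 ms75 ms75_eq (by norm_num) pv_le75 run75 (c _ h))
    (fun h => level hA hu N 30 80 11 ms80 ms80_eq (by norm_num) pv_le80 run80 (c _ h))
    (fun h => level hA hu N 34 100 13 ms100 ms100_eq (by norm_num) pv_le100 run100 (c _ h))
    (fun h => level hA hu N 36 120 14 ms120 ms120_eq (by norm_num) pv_le120 run120 (c _ h))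

/-- The main inequality in natural numbers. -/
theorem main_nat {A : Finset ℕ} (hA : Admissible A) (N : ℕ) :
    8 * (N / (30 * 6) + N / (30 * 12) + N / (30 * 15) + N / (30 * 20) + N / (30 * 30) + N / (30 * 36) + N / (30 * 40) + N / (30 * 45) + N / (30 * 48) + N / (30 * 60) + N / (30 * 75) + N / (30 * 80) + 2 * (N / (30 * 100)) + N / (30 * 120)) ≤
      (Icc 1 N \ A).card := by
  have h1 : ∑ y ∈ range N ×ˢ res, ((if (30 * y.1 + y.2) * 6 ≤ N then 1 else 0) +
      (if (30 * y.1 + y.2) * 12 ≤ N then 1 else 0) +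
      (if (30 * y.1 + y.2) * 15 ≤ N then 1 else 0) +
      (if (30 * y.1 + y.2) * 20 ≤ N then 1 else 0) +
      (if (30 * y.1 + y.2) * 30 ≤ N then 1 else 0) +
      (if (30 * y.1 + y.2) * 36 ≤ N then 1 else 0) +
      (if (30 * y.1 + y.2) * 40 ≤ N then 1 else 0) +
      (if (30 * y.1 + y.2) * 45 ≤ N then 1 else 0) +
      (if (30 * y.1 + y.2) * 48 ≤ N then 1 else 0) +
      (if (30 * y.1 + y.2) * 60 ≤ N then 1 else 0) +
      (if (30 * y.1 + y.2) * 75 ≤ N then 1 else 0) +
      (if (30 * y.1 + y.2) * 80 ≤ N then 1 else 0) +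
      2 * (if (30 * y.1 + y.2) * 100 ≤ N then 1 else 0) +
      (if (30 * y.1 + y.2) * 120 ≤ N then 1 else 0)) ≤
      (Icc 1 N \ A).card := by
    refine le_trans (Finset.sum_le_sum fun y hy => ?_) (missing (A := A) (N := N))
    have hr := (res_bounds y.2 (mem_product.1 hy).2).1
    exact lower hA N (30 * y.1 + y.2) (by omega)
  simp only [Finset.sum_add_distrib, ← Finset.mul_sum] at h1
  have c6 := count N 6
  have c12 := count N 12
  have c15 := count N 15
  have c20 := count N 20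
  have c30 := count N 30
  have c36 := count N 36
  have c40 := count N 40
  have c45 := count N 45
  have c48 := count N 48
  have c60 := count N 60
  have c75 := count N 75
  have c80 := count N 80
  have c100 := count N 100
  have c120 := count N 120
  linarith

theorem div_lb (N X : ℕ) (hX : 0 < X) :
    (N : ℝ) ≤ 30 * (X : ℝ) * ((N / (30 * X) : ℕ) : ℝ) + 30 * (X : ℝ) := by
  have h := Nat.lt_mul_div_succ N (show 0 < 30 * X by omega)
  have h2 : N ≤ 30 * X * (N / (30 * X)) + 30 * X := by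
    rw [Nat.mul_add, Nat.mul_one] at h
    exact h.le
  exact_mod_cast h2

theorem final_real (N a q6 q12 q15 q20 q30 q36 q40 q45 q48 q60 q75 q80 q100 q120 : ℝ)
    (d6 : N ≤ 30 * 6 * q6 + 30 * 6)
    (d12 : N ≤ 30 * 12 * q12 + 30 * 12)
    (d15 : N ≤ 30 * 15 * q15 + 30 * 15)
    (d20 : N ≤ 30 * 20 * q20 + 30 * 20)
    (d30 : N ≤ 30 * 30 * q30 + 30 * 30)
    (d36 : N ≤ 30 * 36 * q36 + 30 * 36)
    (d40 : N ≤ 30 * 40 * q40 + 30 * 40)
    (d45 : N ≤ 30 * 45 * q45 + 30 * 45)
    (d48 : N ≤ 30 * 48 * q48 + 30 * 48)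
    (d60 : N ≤ 30 * 60 * q60 + 30 * 60)
    (d75 : N ≤ 30 * 75 * q75 + 30 * 75)
    (d80 : N ≤ 30 * 80 * q80 + 30 * 80)
    (d100 : N ≤ 30 * 100 * q100 + 30 * 100)
    (d120 : N ≤ 30 * 120 * q120 + 30 * 120)
    (h : 8 * (q6 + q12 + q15 + q20 + q30 + q36 + q40 + q45 + q48 + q60 + q75 + q80 + 2 * q100 + q120) ≤ N - a) :
    a ≤ 191 / 225 * N + 120 := by
  linarith

/-- An admissible subset of `{1, …, N}` has at most `(191/225) N + 120` elements. -/
theorem result (N : ℕ) (A : Finset ℕ) (hAN : A ⊆ Icc 1 N) (hA : Admissible A) :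
    (A.card : ℝ) ≤ 191 / 225 * (N : ℝ) + 120 := by
  have h2 : (Icc 1 N \ A).card + A.card = N := by
    rw [Finset.card_sdiff_add_card_eq_card hAN, Nat.card_Icc]
    simp
  have h3 : (((Icc 1 N \ A).card : ℕ) : ℝ) = N - A.card := by
    have h4 : (((Icc 1 N \ A).card : ℕ) : ℝ) + (A.card : ℝ) = N := by exact_mod_cast h2
    linarith
  refine final_real (N : ℝ) (A.card : ℝ) ((N / (30 * 6) : ℕ) : ℝ) ((N / (30 * 12) : ℕ) : ℝ) ((N / (30 * 15) : ℕ) : ℝ) ((N / (30 * 20) : ℕ) : ℝ) ((N / (30 * 30) : ℕ) : ℝ) ((N / (30 * 36) : ℕ) : ℝ) ((N / (30 * 40) : ℕ) : ℝ) ((N / (30 * 45) : ℕ) : ℝ) ((N / (30 * 48) : ℕ) : ℝ) ((N / (30 * 60) : ℕ) : ℝ) ((N / (30 * 75) : ℕ) : ℝ) ((N / (30 * 80) : ℕ) : ℝ) ((N / (30 * 100) : ℕ) : ℝ) ((N / (30 * 120) : ℕ) : ℝ)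
    (by exact_mod_cast div_lb N 6 (by norm_num)) (by exact_mod_cast div_lb N 12 (by norm_num)) (by exact_mod_cast div_lb N 15 (by norm_num)) (by exact_mod_cast div_lb N 20 (by norm_num)) (by exact_mod_cast div_lb N 30 (by norm_num)) (by exact_mod_cast div_lb N 36 (by norm_num)) (by exact_mod_cast div_lb N 40 (by norm_num)) (by exact_mod_cast div_lb N 45 (by norm_num)) (by exact_mod_cast div_lb N 48 (by norm_num)) (by exact_mod_cast div_lb N 60 (by norm_num)) (by exact_mod_cast div_lb N 75 (by norm_num)) (by exact_mod_cast div_lb N 80 (by norm_num)) (by exact_mod_cast div_lb N 100 (by norm_num)) (by exact_mod_cast div_lb N 120 (by norm_num)) ?_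
  rw [← h3]
  exact_mod_cast main_nat hA N

end Pool.Agent.Results.MP_02969a_nt.FiveSmooth
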